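import Pool.Agent.Y969.SM.Stm2
import Pool.Agent.H373R2.T4.DivB

set_option autoImplicit false

/-! Project SX, job SX-ARI: the arithmetic sum over the tuples, and the size of the weights. -/

namespace Pool.Agent.Y76.SX

open Finset
open Pool.Agent.Y969.GP (ht FR PS)
open Pool.Agent.H373R2.T4.DivB (div_bound)

/-- the sum over all pairs -/
lemma pair_sum {t : ℝ} (ht : t < 1 / 2) (ht0 : 0 ≤ t) : ∃ C : ℝ, 0 < C ∧
    ∀ F : Finset (ℕ × ℕ), (∀ y ∈ F, 1 ≤ y.1 ∧ 1 ≤ y.2) →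
    ∑ y ∈ F, ((y.1 : ℝ) * y.2) ^ (-2 + t) * (Nat.gcd y.1 y.2 : ℝ) ^ 2 ≤ C := by
  have h1 : Summable (fun n : ℕ => (n : ℝ) ^ (-2 + 2 * t)) :=
    Real.summable_nat_rpow.2 (by linarith)
  have h2 : Summable (fun n : ℕ => (n : ℝ) ^ (-2 + t)) :=
    Real.summable_nat_rpow.2 (by linarith)
  have h3 : Summable (fun x : ℕ × ℕ => (x.1 : ℝ) ^ (-2 + t) * (x.2 : ℝ) ^ (-2 + t)) :=
    h2.mul_of_nonneg h2 (fun n => Real.rpow_nonneg (Nat.cast_nonneg n) _)
      (fun n => Real.rpow_nonneg (Nat.cast_nonneg n) _)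
  have h4 : Summable (fun x : ℕ × (ℕ × ℕ) => (x.1 : ℝ) ^ (-2 + 2 * t) *
      ((x.2.1 : ℝ) ^ (-2 + t) * (x.2.2 : ℝ) ^ (-2 + t))) :=
    h1.mul_of_nonneg h3 (fun n => Real.rpow_nonneg (Nat.cast_nonneg n) _)
      (fun x => mul_nonneg (Real.rpow_nonneg (Nat.cast_nonneg _) _)
        (Real.rpow_nonneg (Nat.cast_nonneg _) _))
  set G : ℕ × (ℕ × ℕ) → ℝ := fun x => (x.1 : ℝ) ^ (-2 + 2 * t) *
      ((x.2.1 : ℝ) ^ (-2 + t) * (x.2.2 : ℝ) ^ (-2 + t)) with hG
  have hG0 : ∀ x, 0 ≤ G x := fun x => mul_nonneg (Real.rpow_nonneg (Nat.cast_nonneg _) _)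
    (mul_nonneg (Real.rpow_nonneg (Nat.cast_nonneg _) _) (Real.rpow_nonneg (Nat.cast_nonneg _) _))
  have hts : 0 ≤ ∑' x, G x := tsum_nonneg hG0
  refine ⟨∑' x, G x + 1, by linarith, ?_⟩
  intro F hF
  let φ : ℕ × ℕ → ℕ × (ℕ × ℕ) := fun y =>
    (Nat.gcd y.1 y.2, (y.1 / Nat.gcd y.1 y.2, y.2 / Nat.gcd y.1 y.2))
  have hinj : Set.InjOn φ F := by
    rintro ⟨a, b⟩ _ ⟨a', b'⟩ _ h
    simp only [φ, Prod.mk.injEq] at h
    obtain ⟨e1, e2, e3⟩ := h
    have k1 := Nat.mul_div_cancel' (Nat.gcd_dvd_left a b)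
    have k2 := Nat.mul_div_cancel' (Nat.gcd_dvd_left a' b')
    have k3 := Nat.mul_div_cancel' (Nat.gcd_dvd_right a b)
    have k4 := Nat.mul_div_cancel' (Nat.gcd_dvd_right a' b')
    have k5 : a = a' := by
      rw [← k1, ← k2, e2, e1]
    have k6 : b = b' := by
      rw [← k3, ← k4, e3, e1]
    rw [k5, k6]
  have hval : ∀ y ∈ F, ((y.1 : ℝ) * y.2) ^ (-2 + t) * (Nat.gcd y.1 y.2 : ℝ) ^ 2 = G (φ y) := by
    rintro ⟨a, b⟩ hy
    obtain ⟨ha, hb⟩ := hF _ hy
    simp only at ha hb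
    have hg : 0 < Nat.gcd a b := Nat.gcd_pos_of_pos_left _ ha
    simp only [hG, φ]
    set g := Nat.gcd a b with hgdef
    have k1 : (a : ℝ) = (g : ℝ) * ((a / g : ℕ) : ℝ) := by
      exact_mod_cast (Nat.mul_div_cancel' (Nat.gcd_dvd_left a b)).symm
    have k3 : (b : ℝ) = (g : ℝ) * ((b / g : ℕ) : ℝ) := by
      exact_mod_cast (Nat.mul_div_cancel' (Nat.gcd_dvd_right a b)).symm
    have hg' : (0 : ℝ) < g := by exact_mod_cast hg
    have k4 : (g : ℝ) ^ (-2 + 2 * t) = (g : ℝ) ^ (-2 + t) * (g : ℝ) ^ (-2 + t) * (g : ℝ) ^ 2 := by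
      rw [← Real.rpow_add hg', ← Real.rpow_natCast (g : ℝ) 2, ← Real.rpow_add hg']
      congr 1
      push_cast
      ring
    have k5 : ((a : ℝ) * b) ^ (-2 + t) = (g : ℝ) ^ (-2 + t) * ((a / g : ℕ) : ℝ) ^ (-2 + t) *
        ((g : ℝ) ^ (-2 + t) * ((b / g : ℕ) : ℝ) ^ (-2 + t)) := by
      rw [k1, k3, Real.mul_rpow (by positivity) (by positivity),
        Real.mul_rpow (by positivity) (by positivity), Real.mul_rpow (by positivity) (by positivity)]
    rw [k4, k5]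
    ring
  rw [Finset.sum_congr rfl hval, ← Finset.sum_image (f := G) hinj]
  have := h4.sum_le_tsum (F.image φ) (fun x _ => hG0 x)
  linarith

lemma mem_FR {X : ℕ} {p : ℕ × ℕ} (hp : p ∈ FR X) : 1 ≤ p.1 ∧ 1 ≤ p.2 := by
  unfold FR PS at hp
  simp only [Finset.mem_filter, Finset.mem_product, Finset.mem_Icc] at hp
  exact ⟨hp.1.1.1.1, hp.1.1.2.1⟩

theorem t_ARI : Pool.Agent.Y969.SM.S_ARI := by
  intro n s hs
  set s0 : ℝ := max s 0 with hs0def
  have hs0 : s0 < 1 / 2 := max_lt hs (by norm_num)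
  have hs00 : 0 ≤ s0 := le_max_right _ _
  have hss0 : s ≤ s0 := le_max_left _ _
  set δ : ℝ := (1 / 2 - s0) / (2 * (n + 1)) with hδdef
  have hn : (0 : ℝ) ≤ n := Nat.cast_nonneg n
  have hδ : 0 < δ := div_pos (by linarith) (by positivity)
  obtain ⟨C1, hC1, hdiv⟩ := div_bound hδ
  have hδ2 : δ * (2 * (n + 1)) = 1 / 2 - s0 := by
    rw [hδdef]
    field_simp
  have hnδ : n * δ < 1 / 2 - s0 := by nlinarith
  set t : ℝ := s0 + n * δ with htdef
  have ht0 : 0 ≤ t := by positivity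
  have ht1 : t < 1 / 2 := by linarith
  obtain ⟨C2, hC2, hpair⟩ := pair_sum ht1 ht0
  refine ⟨(C1 ^ 2) ^ n * C2, by positivity, ?_⟩
  intro Z
  set Q := Fintype.piFinset (fun _ : Fin n => FR Z) with hQ
  let φ : (Fin n → ℕ × ℕ) → ℕ × ℕ := fun q => (∏ j, (q j).1, ∏ j, (q j).2)
  have hpos : ∀ q ∈ Q, ∀ j, 1 ≤ (q j).1 ∧ 1 ≤ (q j).2 := by
    intro q hq j
    exact mem_FR (Fintype.mem_piFinset.1 hq j)
  have hφpos : ∀ q ∈ Q, 1 ≤ (φ q).1 ∧ 1 ≤ (φ q).2 := by
    intro q hq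
    have e1 : 0 < ∏ j, (q j).1 := Finset.prod_pos (fun j _ => (hpos q hq j).1)
    have e2 : 0 < ∏ j, (q j).2 := Finset.prod_pos (fun j _ => (hpos q hq j).2)
    exact ⟨e1, e2⟩
  let Fn : ℕ × ℕ → ℝ := fun y => ((y.1 : ℝ) * y.2) ^ (-2 + s) * (Nat.gcd y.1 y.2 : ℝ) ^ 2
  have h1 : ∀ q ∈ Q, (∏ j, ht (q j)) ^ (-2 + s) *
      (Nat.gcd (∏ j, (q j).1) (∏ j, (q j).2) : ℝ) ^ 2 = Fn (φ q) := by
    intro q _
    have h2 : ∏ j, ht (q j) = (((φ q).1 : ℕ) : ℝ) * (((φ q).2 : ℕ) : ℝ) := by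
      simp only [ht, φ, Finset.prod_mul_distrib, Nat.cast_prod]
    rw [h2]
  rw [Finset.sum_congr rfl h1, Finset.sum_comp Fn φ]
  calc ∑ b ∈ Q.image φ, (Q.filter (fun a => φ a = b)).card • Fn b
      ≤ ∑ b ∈ Q.image φ, (C1 ^ 2) ^ n *
        (((b.1 : ℝ) * b.2) ^ (-2 + t) * (Nat.gcd b.1 b.2 : ℝ) ^ 2) := by
        refine Finset.sum_le_sum fun b hb => ?_
        obtain ⟨q0, hq0, hqb⟩ := Finset.mem_image.1 hb
        obtain ⟨hb1, hb2⟩ := hφpos q0 hq0
        rw [hqb] at hb1 hb2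
        have hcard : (Q.filter (fun a => φ a = b)).card ≤
            (b.1.divisors.card * b.2.divisors.card) ^ n := by
          have hsub : Q.filter (fun a => φ a = b) ⊆
              Fintype.piFinset (fun _ : Fin n => b.1.divisors ×ˢ b.2.divisors) := by
            intro q hq
            obtain ⟨-, hqb'⟩ := Finset.mem_filter.1 hq
            rw [Fintype.mem_piFinset]
            intro j
            rw [Finset.mem_product, Nat.mem_divisors, Nat.mem_divisors]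
            have e1 : ∏ j, (q j).1 = b.1 := congrArg Prod.fst hqb'
            have e2 : ∏ j, (q j).2 = b.2 := congrArg Prod.snd hqb'
            refine ⟨⟨?_, by omega⟩, ⟨?_, by omega⟩⟩
            · rw [← e1]
              exact Finset.dvd_prod_of_mem (fun j => (q j).1) (Finset.mem_univ j)
            · rw [← e2]
              exact Finset.dvd_prod_of_mem (fun j => (q j).2) (Finset.mem_univ j)
          refine (Finset.card_le_card hsub).trans (le_of_eq ?_)
          rw [Fintype.card_piFinset_const, Finset.card_product]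
        have hb1' : (1 : ℝ) ≤ b.1 := by exact_mod_cast hb1
        have hb2' : (1 : ℝ) ≤ b.2 := by exact_mod_cast hb2
        have hbb : (1 : ℝ) ≤ (b.1 : ℝ) * b.2 := by nlinarith
        have hbb0 : (0 : ℝ) < (b.1 : ℝ) * b.2 := by linarith
        have hd1 := hdiv b.1 (by omega)
        have hd2 := hdiv b.2 (by omega)
        have hcard' : ((Q.filter (fun a => φ a = b)).card : ℝ) ≤
            (C1 ^ 2) ^ n * ((b.1 : ℝ) * b.2) ^ (n * δ) := by
          calc ((Q.filter (fun a => φ a = b)).card : ℝ)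
              ≤ (((b.1.divisors.card * b.2.divisors.card) ^ n : ℕ) : ℝ) := by
                exact_mod_cast hcard
            _ = ((b.1.divisors.card : ℝ) * b.2.divisors.card) ^ n := by push_cast; ring
            _ ≤ ((C1 * (b.1 : ℝ) ^ δ) * (C1 * (b.2 : ℝ) ^ δ)) ^ n := by
                apply pow_le_pow_left₀ (by positivity)
                exact mul_le_mul hd1 hd2 (by positivity) (by positivity)
            _ = (C1 ^ 2) ^ n * (((b.1 : ℝ) * b.2) ^ δ) ^ n := by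
                rw [← mul_pow, Real.mul_rpow (by positivity) (by positivity)]
                congr 1
                ring
            _ = (C1 ^ 2) ^ n * ((b.1 : ℝ) * b.2) ^ (n * δ) := by
                rw [← Real.rpow_natCast (((b.1 : ℝ) * b.2) ^ δ) n, ← Real.rpow_mul hbb0.le,
                  mul_comm δ]
        have hexp : ((b.1 : ℝ) * b.2) ^ (n * δ) * ((b.1 : ℝ) * b.2) ^ (-2 + s) ≤
            ((b.1 : ℝ) * b.2) ^ (-2 + t) := by
          rw [← Real.rpow_add hbb0]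
          apply Real.rpow_le_rpow_of_exponent_le hbb
          rw [htdef]
          linarith
        rw [nsmul_eq_mul]
        have hg0 : (0 : ℝ) ≤ (Nat.gcd b.1 b.2 : ℝ) ^ 2 := by positivity
        calc ((Q.filter (fun a => φ a = b)).card : ℝ) * Fn b
            ≤ (C1 ^ 2) ^ n * ((b.1 : ℝ) * b.2) ^ (n * δ) * Fn b := by
              apply mul_le_mul_of_nonneg_right hcard'
              exact mul_nonneg (Real.rpow_nonneg hbb0.le _) hg0
          _ = (C1 ^ 2) ^ n * ((((b.1 : ℝ) * b.2) ^ (n * δ) * ((b.1 : ℝ) * b.2) ^ (-2 + s)) *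
                (Nat.gcd b.1 b.2 : ℝ) ^ 2) := by
              simp only [Fn]
              ring
          _ ≤ (C1 ^ 2) ^ n * (((b.1 : ℝ) * b.2) ^ (-2 + t) * (Nat.gcd b.1 b.2 : ℝ) ^ 2) := by
              apply mul_le_mul_of_nonneg_left _ (by positivity)
              exact mul_le_mul_of_nonneg_right hexp hg0
    _ = (C1 ^ 2) ^ n * ∑ b ∈ Q.image φ,
        (((b.1 : ℝ) * b.2) ^ (-2 + t) * (Nat.gcd b.1 b.2 : ℝ) ^ 2) := by
        rw [Finset.mul_sum]
    _ ≤ (C1 ^ 2) ^ n * C2 := by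
        apply mul_le_mul_of_nonneg_left _ (by positivity)
        apply hpair
        intro y hy
        obtain ⟨q, hq, rfl⟩ := Finset.mem_image.1 hy
        exact hφpos q hq

theorem t_W2B : Pool.Agent.Y969.SM.S_W2B := by
  intro ε hε
  obtain ⟨C, hC, hdiv⟩ := div_bound hε
  refine ⟨C, by linarith, ?_⟩
  intro h l hh hl
  have hh' : (0 : ℝ) < h := by exact_mod_cast hh
  have hl' : (0 : ℝ) < l := by exact_mod_cast hl
  have hhl0 : h * l ≠ 0 := by positivity
  have hw1 : Pool.Agent.W184.NZ.w1 (h, l) = (Nat.gcd h l : ℝ) / ((h : ℝ) * l) := rfl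
  have hf : ∀ p ∈ (h * l).primeFactors,
      0 ≤ 1 + (((h.factorization p : ℤ) - l.factorization p).natAbs : ℝ) *
        (((p : ℝ) - 1) / ((p : ℝ) + 1)) ∧
      1 + (((h.factorization p : ℤ) - l.factorization p).natAbs : ℝ) *
        (((p : ℝ) - 1) / ((p : ℝ) + 1)) ≤ (((h * l).factorization p + 1 : ℕ) : ℝ) := by
    intro p hp
    have hp1 : (1 : ℝ) ≤ p := by
      exact_mod_cast (Nat.prime_of_mem_primeFactors hp).one_lt.le
    have hr0 : 0 ≤ ((p : ℝ) - 1) / ((p : ℝ) + 1) := div_nonneg (by linarith) (by linarith)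
    have hr1 : ((p : ℝ) - 1) / ((p : ℝ) + 1) ≤ 1 := by
      rw [div_le_one (by linarith)]
      linarith
    have hv : ((h.factorization p : ℤ) - l.factorization p).natAbs ≤ (h * l).factorization p := by
      rw [Nat.factorization_mul (by omega) (by omega), Finsupp.add_apply]
      omega
    have hv' : (((h.factorization p : ℤ) - l.factorization p).natAbs : ℝ) ≤
        ((h * l).factorization p : ℝ) := by exact_mod_cast hv
    have hv0 : (0 : ℝ) ≤ (((h.factorization p : ℤ) - l.factorization p).natAbs : ℝ) :=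
      Nat.cast_nonneg _
    refine ⟨by positivity, ?_⟩
    push_cast
    nlinarith
  have hprod : ∏ p ∈ (h * l).primeFactors,
      (1 + (((h.factorization p : ℤ) - l.factorization p).natAbs : ℝ) *
        (((p : ℝ) - 1) / ((p : ℝ) + 1))) ≤ ((h * l).divisors.card : ℝ) := by
    rw [Nat.card_divisors hhl0, Nat.cast_prod]
    exact Finset.prod_le_prod (fun p hp => (hf p hp).1) (fun p hp => (hf p hp).2)
  have hprod0 : 0 ≤ ∏ p ∈ (h * l).primeFactors,
      (1 + (((h.factorization p : ℤ) - l.factorization p).natAbs : ℝ) *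
        (((p : ℝ) - 1) / ((p : ℝ) + 1))) := Finset.prod_nonneg (fun p hp => (hf p hp).1)
  have hw2 : Pool.Agent.Y969.SM.w2 (h, l) = (Nat.gcd h l : ℝ) / ((h : ℝ) * l) *
      ∏ p ∈ (h * l).primeFactors,
      (1 + (((h.factorization p : ℤ) - l.factorization p).natAbs : ℝ) *
        (((p : ℝ) - 1) / ((p : ℝ) + 1))) := rfl
  have hg0 : 0 ≤ (Nat.gcd h l : ℝ) / ((h : ℝ) * l) := by positivity
  rw [hw2]
  refine ⟨mul_nonneg hg0 hprod0, ?_⟩
  have hd := hdiv (h * l) hhl0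
  push_cast at hd
  calc (Nat.gcd h l : ℝ) / ((h : ℝ) * l) * ∏ p ∈ (h * l).primeFactors,
      (1 + (((h.factorization p : ℤ) - l.factorization p).natAbs : ℝ) *
        (((p : ℝ) - 1) / ((p : ℝ) + 1)))
      ≤ (Nat.gcd h l : ℝ) / ((h : ℝ) * l) * (C * ((h : ℝ) * l) ^ ε) :=
        mul_le_mul_of_nonneg_left (hprod.trans hd) hg0
    _ = C * (((h : ℝ) * l) ^ (-1 + ε) * (Nat.gcd h l : ℝ)) := by
        have hhl : (0 : ℝ) < (h : ℝ) * l := by positivity
        rw [Real.rpow_add hhl, Real.rpow_neg_one]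
        rw [div_eq_mul_inv]
        ring

end Pool.Agent.Y76.SX
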